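import Mathlib

namespace Pool.Agent.Results.MP_06621a_co.Q1

/-- The number of distinct non-empty palindromes that are scattered subwords of `w`. -/
noncomputable def SP {α : Type} (w : List α) : ℕ :=
  {u : List α | u ≠ [] ∧ u.Sublist w ∧ u.reverse = u}.ncard

/-- The number of distinct letters of `w`. -/
noncomputable def alph {α : Type} (w : List α) : ℕ := {a : α | a ∈ w}.ncard

def M (n : ℕ) : ℕ := if n % 2 = 1 then 3 * 2 ^ ((n + 1) / 2 - 1) - 2 else 2 ^ (n / 2 + 1) - 2

def G : ℕ → ℕ
  | 0 => 2
  | 1 => 3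
  | n + 2 => 2 * G n

lemma G_M (n : ℕ) : G n = M n + 2 := by
  have key : ∀ k, G (2 * k) = 2 * 2 ^ k ∧ G (2 * k + 1) = 3 * 2 ^ k := by
    intro k
    induction k with
    | zero => simp [G]
    | succ k ih =>
      rw [show 2 * (k + 1) = 2 * k + 2 by ring, show 2 * k + 2 + 1 = (2 * k + 1) + 2 by ring, G, G,
        ih.1, ih.2]
      constructor <;> ring
  obtain ⟨k, rfl | rfl⟩ := Nat.even_or_odd' n
  · have : 0 < 2 ^ k := by positivity
    rw [(key k).1, M, if_neg (by omega), show 2 * k / 2 = k by omega, pow_succ]; omega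
  · have : 0 < 2 ^ k := by positivity
    rw [(key k).2, M, if_pos (by omega), show (2 * k + 1 + 1) / 2 - 1 = k by omega]; omega

lemma G_step (m : ℕ) : 4 * G m ≤ 3 * G (m + 1) := by
  induction m using Nat.twoStepInduction with
  | zero => simp [G]
  | one => simp [G]
  | more m ih _ => rw [show m + 2 + 1 = (m + 1) + 2 by ring, G, G]; omega

lemma G_mono : Monotone G := monotone_nat_of_le_succ fun m => by have := G_step m; omega

lemma G_add (m u : ℕ) : G (m + 2 * u) = 2 ^ u * G m := by
  induction u with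
  | zero => simp
  | succ u ih => rw [show m + 2 * (u + 1) = (m + 2 * u) + 2 by ring, G, ih]; ring

lemma G_ge (m : ℕ) : m + 2 ≤ G m ∧ (3 ≤ m → m + 3 ≤ G m) := by
  induction m using Nat.twoStepInduction with
  | zero => simp [G]
  | one => simp [G]
  | more m ih _ => rw [G]; omega

lemma G_d (m d : ℕ) : G m * 2 ^ (d + 1) ≤ G (m + d) * (1 + 2 ^ d) := by
  rcases d with _ | _ | d
  · simp
  · have := G_step m; norm_num; omega
  · have h : 2 * G m ≤ G (m + (d + 1 + 1)) := by
      exact G_mono (show m + 2 ≤ m + (d + 1 + 1) by omega)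
    calc G m * 2 ^ (d + 1 + 1 + 1) = (2 * G m) * 2 ^ (d + 1 + 1) := by ring
      _ ≤ _ := Nat.mul_le_mul h (by omega)

lemma G_conv (m u v : ℕ) :
    (G m : ℚ) ≤ G (m + u + v + 2) * ((1 / 2) ^ u + (1 / 2) ^ v) / 4 := by
  wlog h : u ≤ v generalizing u v
  · have := this v u (by omega)
    rwa [show m + v + u = m + u + v by ring, add_comm ((1 / 2 : ℚ) ^ v)] at this
  obtain ⟨d, rfl⟩ := Nat.exists_eq_add_of_le h
  rw [show m + u + (u + d) + 2 = (m + d) + 2 * (u + 1) by ring, G_add]
  have h1 : ((G m * 2 ^ (d + 1) : ℕ) : ℚ) ≤ (G (m + d) * (1 + 2 ^ d) : ℕ) := by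
    exact_mod_cast G_d m d
  push_cast at h1 ⊢
  have e : (2 : ℚ) ^ (u + 1) * G (m + d) * ((1 / 2) ^ u + (1 / 2) ^ (u + d)) / 4 =
      G (m + d) * (1 + 2 ^ d) / 2 ^ (d + 1) := by
    simp only [one_div, inv_pow]; field_simp; ring
  rw [e, le_div_iff₀ (by positivity)]; exact h1

lemma geo (S : Finset ℕ) : ∑ i ∈ S, (1 / 2 : ℚ) ^ i ≤ 2 - 2 * (1 / 2) ^ S.card := by
  induction S using Finset.induction_on_max with
  | empty => simp
  | insert a S h ih =>
    have ha : a ∉ S := fun c => lt_irrefl _ (h a c)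
    have : S.card ≤ a := by
      simpa using Finset.card_le_card (show S ⊆ Finset.range a from fun x hx => by
        simpa using h x hx)
    have : (1 / 2 : ℚ) ^ a ≤ (1 / 2) ^ S.card :=
      pow_le_pow_of_le_one (by norm_num) (by norm_num) this
    rw [Finset.sum_insert ha, Finset.card_insert_of_notMem ha, pow_succ]; linarith

variable {α : Type} [DecidableEq α]

def P (w : List α) : Finset (List α) :=
  w.sublists.toFinset.filter fun u => u ≠ [] ∧ u.reverse = u

lemma mem_P {w u : List α} : u ∈ P w ↔ u ≠ [] ∧ u.Sublist w ∧ u.reverse = u := by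
  simp only [P, Finset.mem_filter, List.mem_toFinset, List.mem_sublists]; tauto

lemma SP_eq (w : List α) : SP w = (P w).card := by
  rw [SP, ← Set.ncard_coe_finset]; congr 1; ext u; simp [mem_P]

lemma alph_eq (w : List α) : alph w = w.toFinset.card := by
  rw [alph, ← Set.ncard_coe_finset]; congr 1; ext u; simp

omit [DecidableEq α] in
lemma cut {a : α} {x t : List α} : ∀ p : List α, a ∉ p → (a :: x).Sublist (p ++ a :: t) →
    x.Sublist t
  | [], _, h => List.cons_sublist_cons.1 h
  | b :: p, hp, h => by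
    simp only [List.mem_cons, not_or] at hp
    rcases List.sublist_cons_iff.1 h with h | ⟨r, e, _⟩
    · exact cut p hp.2 h
    · exact absurd (List.cons.inj e).1 hp.1

omit [DecidableEq α] in
lemma shape {a : α} {t : List α} (h : (a :: t).reverse = a :: t) :
    t = [] ∨ ∃ x, t = x ++ [a] ∧ x.reverse = x := by
  rcases List.eq_nil_or_concat t with rfl | ⟨x, b, rfl⟩
  · exact Or.inl rfl
  · right
    simp only [List.concat_eq_append, List.reverse_cons, List.reverse_append, List.reverse_nil,
      List.nil_append, List.cons_append, List.cons.injEq] at h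
    obtain ⟨rfl, h⟩ := h
    exact ⟨x, by simp, List.append_cancel_right h⟩

lemma dec {a : α} {w : List α} (h : 2 ≤ w.count a) :
    ∃ p y s, w = p ++ a :: (y ++ a :: s) ∧ a ∉ p ∧ a ∉ s := by
  obtain ⟨p, t, rfl, hp⟩ := List.eq_append_cons_of_mem (List.count_pos_iff.1 (by omega : 0 < w.count a))
  have : a ∈ t.reverse := by
    rw [List.count_append, List.count_eq_zero_of_not_mem hp, List.count_cons_self] at h
    exact List.mem_reverse.2 (List.count_pos_iff.1 (by omega))
  obtain ⟨s, y, e, hs⟩ := List.eq_append_cons_of_mem this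
  refine ⟨p, y.reverse, s.reverse, ?_, hp, by simpa using hs⟩
  rw [← List.reverse_reverse t, e]; simp

def Q (w : List α) (a : α) : Finset (List α) := (P w).filter fun u => u.head? = some a

lemma Q_one {a : α} {w : List α} (h : w.count a < 2) : (Q w a).card ≤ 1 := by
  refine (Finset.card_le_card (t := {[a]}) fun u hu => ?_).trans (by simp)
  obtain ⟨hu, e⟩ := Finset.mem_filter.1 hu
  obtain ⟨-, h1, h2⟩ := mem_P.1 hu
  obtain ⟨t, rfl⟩ := List.head?_eq_some_iff.1 e
  rcases shape h2 with rfl | ⟨x, rfl, -⟩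
  · simp
  · have := h1.count_le a
    simp at this; omega

lemma Q_two {a : α} {p y s : List α} (hp : a ∉ p) (hs : a ∉ s) :
    (Q (p ++ a :: (y ++ a :: s)) a).card ≤ (P y).card + 2 := by
  refine (Finset.card_le_card
    (t := insert [a] (insert [a, a] ((P y).image fun x => a :: (x ++ [a])))) fun u hu => ?_).trans ?_
  · obtain ⟨hu, e⟩ := Finset.mem_filter.1 hu
    obtain ⟨-, h1, h2⟩ := mem_P.1 hu
    obtain ⟨t, rfl⟩ := List.head?_eq_some_iff.1 e
    rcases shape h2 with rfl | ⟨x, rfl, hx⟩
    · simp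
    · by_cases h0 : x = []
      · simp [h0]
      have h3 : (a :: x.reverse).Sublist (s.reverse ++ a :: y.reverse) := by
        simpa using (cut p hp h1).reverse
      have h4 := cut s.reverse (by simpa using hs) h3
      refine Finset.mem_insert_of_mem (Finset.mem_insert_of_mem
        (Finset.mem_image.2 ⟨x, mem_P.2 ⟨h0, List.reverse_sublist.1 h4, hx⟩, rfl⟩))
  · have h1 := Finset.card_insert_le [a] (insert [a, a] ((P y).image fun x => a :: (x ++ [a])))
    have h2 := Finset.card_insert_le [a, a] ((P y).image fun x => a :: (x ++ [a]))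
    have h3 := Finset.card_image_le (s := P y) (f := fun x => a :: (x ++ [a]))
    omega

lemma main (n : ℕ) : ∀ w : List α, w.length = n → ∃ k s, w.toFinset.card = k + s ∧
    2 * k + s ≤ n ∧ (P w).card + G (n - 2 * k) ≤ G n + s := by
  induction n using Nat.strong_induction_on with
  | _ n ih =>
  intro w hw
  set K := w.toFinset.filter fun a => 2 ≤ w.count a with hK
  set S := w.toFinset.filter fun a => ¬ 2 ≤ w.count a with hS
  have h2 : 2 * K.card + S.card ≤ n := by
    rw [← hw, ← List.sum_toFinset_count_eq_length,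
      ← Finset.sum_filter_add_sum_filter_not _ fun a => 2 ≤ w.count a]
    refine add_le_add ?_ ?_
    · rw [mul_comm]
      exact Finset.card_nsmul_le_sum K _ 2 fun a ha => (Finset.mem_filter.1 ha).2
    · rw [Finset.card_eq_sum_ones]
      exact Finset.sum_le_sum fun a ha =>
        List.count_pos_iff.2 (List.mem_toFinset.1 (Finset.mem_filter.1 ha).1)
  refine ⟨K.card, S.card, (Finset.card_filter_add_card_filter_not _).symm, h2, ?_⟩
  have h3 : (P w).card ≤ ∑ a ∈ K, (Q w a).card + S.card := by
    have : P w ⊆ w.toFinset.biUnion (Q w) := fun u hu => by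
      obtain ⟨h0, h1, -⟩ := mem_P.1 hu
      obtain ⟨a, t, rfl⟩ := List.exists_cons_of_ne_nil h0
      exact Finset.mem_biUnion.2 ⟨a, List.mem_toFinset.2 (h1.subset (by simp)),
        Finset.mem_filter.2 ⟨hu, rfl⟩⟩
    refine (Finset.card_le_card this).trans (Finset.card_biUnion_le.trans ?_)
    rw [← Finset.sum_filter_add_sum_filter_not _ fun a => 2 ≤ w.count a]
    refine add_le_add le_rfl ?_
    rw [Finset.card_eq_sum_ones]
    exact Finset.sum_le_sum fun a ha => Q_one (not_le.1 (Finset.mem_filter.1 ha).2)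
  have h4 : ∀ a ∈ K, ((Q w a).card : ℚ) ≤
      G n * ((1 / 2) ^ (w.idxOf a) + (1 / 2) ^ (w.reverse.idxOf a)) / 4 := by
    intro a ha
    obtain ⟨p, y, s, e, hp, hs⟩ := dec (Finset.mem_filter.1 ha).2
    have l : n = y.length + p.length + s.length + 2 := by rw [← hw, e]; simp; omega
    have i1 : w.idxOf a = p.length := by
      rw [e, List.idxOf_append_of_notMem hp]; simp
    have i2 : w.reverse.idxOf a = s.length := by
      have : w.reverse = s.reverse ++ a :: (y.reverse ++ a :: p.reverse) := by rw [e]; simp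
      rw [this, List.idxOf_append_of_notMem (by simpa using hs)]; simp
    obtain ⟨k, s', -, b1, b2⟩ := ih y.length (by omega) y rfl
    have b3 := (G_ge (y.length - 2 * k)).1
    have b4 := Q_two (y := y) hp hs
    rw [← e] at b4
    rw [i1, i2, l]
    refine le_trans ?_ (G_conv _ _ _)
    exact_mod_cast (by omega : (Q w a).card ≤ G y.length)
  have h5 : ∀ z : List α, (∀ a ∈ K, a ∈ z) →
      ∑ a ∈ K, (1 / 2 : ℚ) ^ (z.idxOf a) ≤ 2 - 2 * (1 / 2) ^ K.card := by
    intro z hz
    have inj : Set.InjOn (fun a => z.idxOf a) K := fun a ha b _ e =>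
      (List.idxOf_inj (hz a ha)).1 e
    have := geo (K.image fun a => z.idxOf a)
    rwa [Finset.sum_image inj, Finset.card_image_of_injOn inj] at this
  have hm : ∀ a ∈ K, a ∈ w := fun a ha => List.mem_toFinset.1 (Finset.mem_filter.1 ha).1
  have h6 := h5 w hm
  have h7 := h5 w.reverse fun a ha => List.mem_reverse.2 (hm a ha)
  have h8 := Finset.sum_le_sum h4
  rw [← Finset.sum_div, ← Finset.mul_sum, Finset.sum_add_distrib] at h8
  have h9 : (G n : ℚ) * (1 / 2) ^ K.card = G (n - 2 * K.card) := by
    conv_lhs => rw [show n = (n - 2 * K.card) + 2 * K.card by omega, G_add]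
    push_cast; simp only [one_div, inv_pow]; field_simp
  have h10 : ((∑ a ∈ K, (Q w a).card + G (n - 2 * K.card) : ℕ) : ℚ) ≤ (G n : ℕ) := by
    have g0 : (0 : ℚ) ≤ G n := by positivity
    have := mul_le_mul_of_nonneg_left (add_le_add h6 h7) g0
    push_cast; linarith
  have h11 : ∑ a ∈ K, (Q w a).card + G (n - 2 * K.card) ≤ G n := by exact_mod_cast h10
  omega

def W : ℕ → List ℕ
  | 0 => []
  | 1 => [0]
  | n + 2 => (n + 2) :: (W n ++ [n + 2])

lemma W_spec (n : ℕ) : (W n).length = n ∧ (∀ a ∈ W n, a ≤ n) ∧ G n ≤ (P (W n)).card + 2 := by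
  induction n using Nat.twoStepInduction with
  | zero => simp [W, G]
  | one => exact ⟨rfl, by simp [W], by decide⟩
  | more n ih _ =>
    obtain ⟨h1, h2, h3⟩ := ih
    refine ⟨by simp [W, h1], fun a ha => ?_, ?_⟩
    · simp only [W, List.mem_cons, List.mem_append, List.not_mem_nil, or_false] at ha
      rcases ha with rfl | ha | rfl
      · rfl
      · have := h2 a ha; omega
      · rfl
    set c := n + 2 with hc
    have hn : ∀ u ∈ P (W n), c ∉ u := fun u hu h => by
      have := h2 c ((mem_P.1 hu).2.1.subset h); omega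
    set T := (insert [] (P (W n))).image fun x => c :: (x ++ [c]) with hT
    have t1 : T.card = (P (W n)).card + 1 := by
      rw [Finset.card_image_of_injective _ fun x y e => by simpa using e,
        Finset.card_insert_of_notMem fun h => (mem_P.1 h).1 rfl]
    have t2 : [c] ∉ T := by simp [hT]
    have t3 : Disjoint (P (W n)) (insert [c] T) := by
      refine Finset.disjoint_left.2 fun u hu h => hn u hu ?_
      rcases Finset.mem_insert.1 h with rfl | h
      · simp
      · obtain ⟨x, -, rfl⟩ := Finset.mem_image.1 h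
        simp
    have t4 : P (W n) ∪ insert [c] T ⊆ P (W c) := by
      intro u hu
      rw [hc, W, ← hc]
      rcases Finset.mem_union.1 hu with h | h
      · obtain ⟨a1, a2, a3⟩ := mem_P.1 h
        exact mem_P.2 ⟨a1, (a2.trans (List.sublist_append_left _ _)).cons _, a3⟩
      rcases Finset.mem_insert.1 h with rfl | h
      · exact mem_P.2 ⟨by simp, by simp, rfl⟩
      obtain ⟨x, hx, rfl⟩ := Finset.mem_image.1 h
      rcases Finset.mem_insert.1 hx with rfl | hx
      · exact mem_P.2 ⟨by simp, by simp, rfl⟩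
      · obtain ⟨-, a2, a3⟩ := mem_P.1 hx
        exact mem_P.2 ⟨by simp, by simpa using a2, by simp [a3]⟩
    have := Finset.card_le_card t4
    rw [Finset.card_union_of_disjoint t3, Finset.card_insert_of_notMem t2] at this
    rw [hc, G, ← hc]; omega

theorem result (n : ℕ) :
    (∀ (α : Type) (w : List α), w.length = n → SP w ≤ M n ∧ (SP w = M n →
      if n % 2 = 1 then alph w = (n + 1) / 2 else alph w = n / 2 ∨ alph w = n / 2 + 1)) ∧
    ∃ w : List ℕ, w.length = n ∧ SP w = M n := by
  have up : ∀ (α : Type) (w : List α), w.length = n → SP w ≤ M n ∧ (SP w = M n →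
      if n % 2 = 1 then alph w = (n + 1) / 2 else alph w = n / 2 ∨ alph w = n / 2 + 1) := by
    intro α w hw
    classical
    obtain ⟨k, s, h1, h2, h3⟩ := main n w hw
    have h4 := G_ge (n - 2 * k)
    rw [SP_eq, alph_eq, h1]
    rw [G_M n] at h3
    refine ⟨by omega, fun h => ?_⟩
    split_ifs <;> omega
  refine ⟨up, W n, (W_spec n).1, le_antisymm (up _ _ (W_spec n).1).1 ?_⟩
  have := (W_spec n).2.2
  rw [G_M] at this
  rw [SP_eq]; omega

end Pool.Agent.Results.MP_06621a_co.Q1
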